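import Mathlib
import Pool.Agent.R97.DiceConv
import Pool.Agent.R97.DiceIneq

/-!
# MP_f30851_co : maximal probability of a residue class for sums of identical dice

For `n ≥ 2` and `1 ≤ k ≤ n - 1`, `M(n,k)` is the maximum over `t ∈ [0,1]` of the probability that a
binomial variable with parameters `n, t` is congruent to `1` modulo `n / gcd(n,k)`.  In particular
it is `(1 - 1/n)^(n-1)` if `gcd(n,k) = 1`, and `1/2` if `k = n/2`.
-/

namespace Pool.Agent.Results.MP_f30851_co.DiceResidue

open Finset Pool.Agent.R97.DiceConv Pool.Agent.R97.DiceIneq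

/-- The probability that the sum of the labels shown by `n` independent identical fair dice with
`m` faces, labelled by `L`, is congruent to `k` modulo `n`. -/
noncomputable def diceProb (n m : ℕ) (L : Fin m → ℤ) (k : ℕ) : ℝ :=
  ((Finset.univ.filter
    (fun f : Fin n → Fin m => ∑ i, L (f i) ≡ (k : ℤ) [ZMOD n])).card : ℝ) / (m : ℝ) ^ n

/-- `M(n,k)`: the supremum over all dice. -/
noncomputable def M (n k : ℕ) : ℝ :=
  sSup {x : ℝ | ∃ (m : ℕ) (L : Fin m → ℤ), 2 ≤ m ∧ x = diceProb n m L k}

/-- The probability that a binomial variable with parameters `n` and `t` is congruent to `1`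
modulo `R`. -/
noncomputable def binProb (n R : ℕ) (t : ℝ) : ℝ :=
  ∑ i ∈ (Finset.range (n + 1)).filter (fun i => i ≡ 1 [MOD R]),
    (n.choose i : ℝ) * t ^ i * (1 - t) ^ (n - i)

theorem binProb_eq (n R : ℕ) (t : ℝ) : binProb n R t = ∑ i ∈ cls n R 1, bt n t i := rfl

theorem binProb_continuous (n R : ℕ) : Continuous (binProb n R) := by
  unfold binProb
  fun_prop

theorem one_le_mul_exp {n : ℕ} (hn : 2 ≤ n) :
    (1 : ℝ) ≤ (1 - 1 / (n : ℝ)) ^ (n - 1) * Real.exp 1 := by
  obtain ⟨m, rfl⟩ : ∃ m, n = m + 1 := ⟨n - 1, by omega⟩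
  have hm : (0 : ℝ) < m := by
    have : 0 < m := by omega
    exact_mod_cast this
  rw [Nat.add_sub_cancel]
  have e1 : (1 - 1 / ((m + 1 : ℕ) : ℝ)) = m / (m + 1) := by
    push_cast
    field_simp
    ring
  rw [e1]
  have e2 : ((m : ℝ) + 1) / m ≤ Real.exp (1 / m) := by
    have := Real.add_one_le_exp (1 / (m : ℝ))
    have e3 : 1 / (m : ℝ) + 1 = ((m : ℝ) + 1) / m := by field_simp; ring
    rw [e3] at this
    exact this
  have e4 : (((m : ℝ) + 1) / m) ^ m ≤ Real.exp 1 := by
    have := pow_le_pow_left₀ (by positivity) e2 m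
    rw [← Real.exp_nat_mul] at this
    have e5 : (m : ℝ) * (1 / m) = 1 := by field_simp
    rwa [e5] at this
  calc (1 : ℝ) = ((m : ℝ) / (m + 1)) ^ m * (((m : ℝ) + 1) / m) ^ m := by
        rw [← mul_pow]
        have : (m : ℝ) / (m + 1) * (((m : ℝ) + 1) / m) = 1 := by field_simp
        rw [this, one_pow]
    _ ≤ _ := by gcongr

theorem third_lt {n : ℕ} (hn : 2 ≤ n) : (1 : ℝ) / 3 < (1 - 1 / (n : ℝ)) ^ (n - 1) := by
  have h1 := one_le_mul_exp hn
  have h2 := Real.exp_one_lt_d9
  have h3 := Real.exp_pos 1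
  by_contra hcon
  push Not at hcon
  have : (1 - 1 / (n : ℝ)) ^ (n - 1) * Real.exp 1 ≤ 1 / 3 * Real.exp 1 := by gcongr
  linarith

theorem inv_mem {n : ℕ} (hn : 2 ≤ n) : 0 ≤ 1 / (n : ℝ) ∧ 1 / (n : ℝ) ≤ 1 := by
  have : (2 : ℝ) ≤ n := by exact_mod_cast hn
  constructor
  · positivity
  · rw [div_le_one (by linarith)]; linarith

theorem le_binProb {n : ℕ} (hn : 2 ≤ n) (R : ℕ) :
    (1 - 1 / (n : ℝ)) ^ (n - 1) ≤ binProb n R (1 / n) := by
  rw [binProb_eq]
  obtain ⟨h0, h1⟩ := inv_mem hn
  have hmem : 1 ∈ cls n R 1 := by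
    unfold cls
    rw [Finset.mem_filter, Finset.mem_range]
    exact ⟨by omega, rfl⟩
  have h2 := Finset.single_le_sum (f := fun i => bt n (1 / (n : ℝ)) i)
    (fun i _ => bt_nonneg h0 h1 i) hmem
  refine le_trans (le_of_eq ?_) h2
  have hn0 : (n : ℝ) ≠ 0 := by
    have : (0 : ℝ) < n := by exact_mod_cast (by omega : 0 < n)
    exact this.ne'
  simp only [bt, Nat.choose_one_right, pow_one]
  field_simp

/-- Reflection. -/
theorem sum_reflect {n R : ℕ} (hR : 2 ≤ R) (hRn : R ∣ n) (t : ℝ) :
    ∑ i ∈ cls n R (R - 1), bt n t i = binProb n R (1 - t) := by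
  rw [binProb_eq]
  have key : ∀ i, i ≤ n → (i ≡ R - 1 [MOD R] ↔ n - i ≡ 1 [MOD R]) := by
    intro i hi
    have e : (n - i) + i ≡ 1 + (R - 1) [MOD R] := by
      have e1 : (n - i) + i = n := by omega
      have e2 : 1 + (R - 1) = R := by omega
      rw [e1, e2]
      have : n ≡ 0 [MOD R] := (Nat.modEq_zero_iff_dvd).2 hRn
      have h2 : R ≡ 0 [MOD R] := (Nat.modEq_zero_iff_dvd).2 dvd_rfl
      exact this.trans h2.symm
    constructor
    · intro h
      exact Nat.ModEq.add_right_cancel h e
    · intro h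
      exact Nat.ModEq.add_left_cancel h e
  refine Finset.sum_nbij' (fun i => n - i) (fun i => n - i) ?_ ?_ ?_ ?_ ?_
  · intro i hi
    unfold cls at hi ⊢
    rw [Finset.mem_filter, Finset.mem_range] at hi ⊢
    exact ⟨by omega, (key i (by omega)).1 hi.2⟩
  · intro i hi
    unfold cls at hi ⊢
    rw [Finset.mem_filter, Finset.mem_range] at hi ⊢
    refine ⟨by omega, (key (n - i) (by omega)).2 ?_⟩
    have : n - (n - i) = i := by omega
    rw [this]; exact hi.2
  · intro i hi
    unfold cls at hi
    rw [Finset.mem_filter, Finset.mem_range] at hi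
    show n - (n - i) = i
    omega
  · intro i hi
    unfold cls at hi
    rw [Finset.mem_filter, Finset.mem_range] at hi
    show n - (n - i) = i
    omega
  · intro i hi
    unfold cls at hi
    rw [Finset.mem_filter, Finset.mem_range] at hi
    unfold bt
    rw [Nat.choose_symm (by omega : i ≤ n)]
    have e1 : n - (n - i) = i := by omega
    rw [e1]
    ring

/-- Two-point distributions. -/
theorem two_point_bound {n k : ℕ} [NeZero n] (hn : 2 ≤ n) (hk1 : 1 ≤ k) (hk2 : k ≤ n - 1) {V : ℝ}
    (hV : ∀ t : ℝ, 0 ≤ t → t ≤ 1 → binProb n (n / n.gcd k) t ≤ V) (a b : ZMod n) {t : ℝ}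
    (h0 : 0 ≤ t) (h1 : t ≤ 1) :
    c (fun y => (1 - t) * (if y = a then 1 else 0) + t * (if y = b then 1 else 0)) n (k : ZMod n)
      ≤ V := by
  classical
  rw [c_two]
  set d : ZMod n := b - a with hd
  have hkne : (k : ZMod n) ≠ 0 := by
    intro h
    rw [ZMod.natCast_eq_zero_iff] at h
    exact absurd (Nat.le_of_dvd (by omega) h) (by omega)
  have hVbig : (1 - 1 / (n : ℝ)) ^ (n - 1) ≤ V :=
    (le_binProb hn _).trans (hV _ (inv_mem hn).1 (inv_mem hn).2)
  have hV0 : 0 ≤ V := by
    have := third_lt hn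
    linarith
  have hcond : ∀ i ∈ Finset.range (n + 1),
      ((k : ZMod n) = ((n - i : ℕ) : ZMod n) * a + (i : ZMod n) * b) ↔ i • d = (k : ZMod n) := by
    intro i hi
    rw [Finset.mem_range] at hi
    rw [Nat.cast_sub (by omega : i ≤ n), ZMod.natCast_self, hd, nsmul_eq_mul]
    constructor
    · intro h; linear_combination -h
    · intro h; linear_combination -h
  have hsum : ∑ i ∈ Finset.range (n + 1), (n.choose i : ℝ) *
        (t ^ i * (1 - t) ^ (n - i) * (if (k : ZMod n) = ((n - i : ℕ) : ZMod n) * a + (i : ZMod n) * b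
          then 1 else 0))
      = ∑ i ∈ (Finset.range (n + 1)).filter (fun i => i • d = (k : ZMod n)), bt n t i := by
    rw [Finset.sum_filter]
    refine Finset.sum_congr rfl (fun i hi => ?_)
    simp only [hcond i hi]
    unfold bt
    split_ifs <;> ring
  rw [hsum]
  set S := (Finset.range (n + 1)).filter (fun i => i • d = (k : ZMod n)) with hS
  rcases Finset.eq_empty_or_nonempty S with he | ⟨i₀, hi₀⟩
  · rw [he, Finset.sum_empty]; exact hV0
  have hi₀' := (Finset.mem_filter.1 hi₀).2
  set R := addOrderOf d with hR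
  have hRn : R ∣ n := by
    apply addOrderOf_dvd_of_nsmul_eq_zero
    rw [nsmul_eq_mul, ZMod.natCast_self, zero_mul]
  have hR0 : 0 < R := Nat.pos_of_dvd_of_pos hRn (by omega)
  have hiff : ∀ i : ℕ, i • d = (k : ZMod n) ↔ i ≡ i₀ % R [MOD R] := by
    intro i
    rw [← hi₀', nsmul_eq_nsmul_iff_modEq]
    constructor
    · intro h; exact h.trans (Nat.mod_modEq i₀ R).symm
    · intro h; exact h.trans (Nat.mod_modEq i₀ R)
  have hScls : S = cls n R (i₀ % R) := by
    rw [hS]
    unfold cls
    exact Finset.filter_congr (fun i _ => hiff i)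
  rw [hScls]
  have hjlt : i₀ % R < R := Nat.mod_lt _ hR0
  have hjd : (i₀ % R) • d = (k : ZMod n) := (hiff _).2 rfl
  have hj0 : i₀ % R ≠ 0 := by
    intro h
    rw [h, zero_smul] at hjd
    exact hkne hjd.symm
  set j := i₀ % R with hj
  by_cases hj1 : j = 1
  · rw [hj1, one_smul] at hjd
    have hRk : R = n / n.gcd k := by
      rw [hR, hjd]
      exact ZMod.addOrderOf_coe k (by omega)
    rw [hj1, hRk, ← binProb_eq]
    exact hV t h0 h1
  by_cases hjR : j = R - 1
  · have hR2 : 2 ≤ R := by omega
    have hdk : -d = (k : ZMod n) := by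
      rw [← hjd, hjR]
      have : (R - 1) • d + d = 0 := by
        have h3 : (R - 1) • d + d = R • d := by
          have h4 : R = (R - 1) + 1 := by omega
          conv_rhs => rw [h4, add_smul, one_smul]
        rw [h3, hR]
        exact addOrderOf_nsmul_eq_zero d
      linear_combination -this
    have hRk : R = n / n.gcd k := by
      rw [hR, ← addOrderOf_neg, hdk]
      exact ZMod.addOrderOf_coe k (by omega)
    rw [hjR, sum_reflect hR2 hRn, hRk]
    exact hV (1 - t) (by linarith) (by linarith)
  · exact (class_le (by omega) h0 h1 hRn (by omega) (by omega)).trans hVbig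

/-- First-order condition. -/
theorem kkt {n : ℕ} [NeZero n] (hn : 1 ≤ n) (p : ZMod n → ℝ) (hp : p ∈ stdSimplex ℝ (ZMod n))
    (x : ZMod n) (hmax : ∀ q ∈ stdSimplex ℝ (ZMod n), c q n x ≤ c p n x) (a b : ZMod n)
    (hb : 0 < p b) : c p (n - 1) (x - a) ≤ c p (n - 1) (x - b) := by
  classical
  by_cases hab : a = b
  · rw [hab]
  let q : ZMod n → ℝ := fun y => (if y = a then 1 else 0) - (if y = b then 1 else 0)
  have hder := c_hasDerivAt p q n x
  have hqsum : ∑ y, q y * c p (n - 1) (x - y) = c p (n - 1) (x - a) - c p (n - 1) (x - b) := by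
    simp only [q, sub_mul, ite_mul, one_mul, zero_mul, Finset.sum_sub_distrib,
      Finset.sum_ite_eq', Finset.mem_univ, if_true]
  rw [hqsum] at hder
  have hslope := hder.tendsto_slope_zero_right
  have hle : (n : ℝ) * (c p (n - 1) (x - a) - c p (n - 1) (x - b)) ≤ 0 := by
    refine le_of_tendsto hslope ?_
    have hmem : Set.Ioo (0 : ℝ) (p b) ∈ nhdsWithin (0 : ℝ) (Set.Ioi 0) := Ioo_mem_nhdsGT hb
    filter_upwards [hmem] with s hs
    obtain ⟨hs0, hs1⟩ := hs
    have hval : c (fun y => p y + (0 + s) * q y) n x ≤ c p n x := by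
      apply hmax
      refine ⟨fun y => ?_, ?_⟩
      · simp only [q, zero_add]
        have hpy := hp.1 y
        by_cases h1 : y = a
        · have h2 : y ≠ b := fun h => hab (h1 ▸ h)
          rw [if_pos h1, if_neg h2]
          linarith
        · by_cases h2 : y = b
          · rw [if_neg h1, if_pos h2, h2]
            linarith
          · rw [if_neg h1, if_neg h2]
            linarith
      · rw [Finset.sum_add_distrib, hp.2, ← Finset.mul_sum]
        have : ∑ y, q y = 0 := by
          simp only [q, Finset.sum_sub_distrib, Finset.sum_ite_eq', Finset.mem_univ, if_true,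
            sub_self]
        rw [this]; ring
    have hzero : c (fun y => p y + 0 * q y) n x = c p n x := by simp
    simp only [smul_eq_mul]
    rw [hzero]
    apply mul_nonpos_of_nonneg_of_nonpos
    · positivity
    · linarith
  have hn' : (0 : ℝ) < n := by exact_mod_cast hn
  nlinarith

/-- The upper bound on the simplex. -/
theorem simplex_bound {n k : ℕ} [NeZero n] (hn : 2 ≤ n) (hk1 : 1 ≤ k) (hk2 : k ≤ n - 1) {V : ℝ}
    (hV : ∀ t : ℝ, 0 ≤ t → t ≤ 1 → binProb n (n / n.gcd k) t ≤ V) (p : ZMod n → ℝ)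
    (hp : p ∈ stdSimplex ℝ (ZMod n)) : c p n (k : ZMod n) ≤ V := by
  classical
  obtain ⟨P, hP, hPmax⟩ := (isCompact_stdSimplex ℝ (ZMod n)).exists_isMaxOn ⟨p, hp⟩
    ((c_continuous n (k : ZMod n)).continuousOn)
  have hPmax' : ∀ q ∈ stdSimplex ℝ (ZMod n), c q n (k : ZMod n) ≤ c P n (k : ZMod n) :=
    fun q hq => hPmax hq
  refine (hPmax' p hp).trans ?_
  set m := c P n (k : ZMod n) with hm
  -- the maximum is larger than `1/3`
  have hthird : 1 / 3 < m := by
    obtain ⟨i0, i1⟩ := inv_mem hn
    have h1 := hPmax' (fun y => (1 - 1 / (n : ℝ)) * (if y = 0 then 1 else 0)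
      + (1 / (n : ℝ)) * (if y = (k : ZMod n) then 1 else 0)) (by
        refine ⟨fun y => ?_, ?_⟩
        · have : (0 : ℝ) ≤ 1 - 1 / (n : ℝ) := by linarith
          show (0 : ℝ) ≤ (1 - 1 / (n : ℝ)) * (if y = 0 then 1 else 0)
            + (1 / (n : ℝ)) * (if y = (k : ZMod n) then 1 else 0)
          apply add_nonneg <;> apply mul_nonneg <;> first | assumption | (split_ifs <;> norm_num)
        · rw [Finset.sum_add_distrib, ← Finset.mul_sum, ← Finset.mul_sum, Finset.sum_ite_eq',
            Finset.sum_ite_eq', if_pos (Finset.mem_univ _), if_pos (Finset.mem_univ _)]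
          ring)
    have h2 : (1 - 1 / (n : ℝ)) ^ (n - 1) ≤ c (fun y => (1 - 1 / (n : ℝ)) * (if y = 0 then 1 else 0)
      + (1 / (n : ℝ)) * (if y = (k : ZMod n) then 1 else 0)) n (k : ZMod n) := by
      rw [c_two]
      have hmem : 1 ∈ Finset.range (n + 1) := Finset.mem_range.2 (by omega)
      have hnn : ∀ i ∈ Finset.range (n + 1), 0 ≤ (n.choose i : ℝ) *
        ((1 / (n : ℝ)) ^ i * (1 - 1 / (n : ℝ)) ^ (n - i) *
          (if (k : ZMod n) = ((n - i : ℕ) : ZMod n) * 0 + (i : ZMod n) * (k : ZMod n)
          then 1 else 0)) := by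
        intro i _
        have : (0 : ℝ) ≤ 1 - 1 / (n : ℝ) := by linarith
        have h3 : (0 : ℝ) ≤ (if (k : ZMod n) = ((n - i : ℕ) : ZMod n) * 0
            + (i : ZMod n) * (k : ZMod n) then 1 else 0) := by split_ifs <;> norm_num
        positivity
      have h3 := Finset.single_le_sum hnn hmem
      refine le_trans (le_of_eq ?_) h3
      have hn0 : (n : ℝ) ≠ 0 := by
        have : (0 : ℝ) < n := by exact_mod_cast (by omega : 0 < n)
        exact this.ne'
      have h4 : (k : ZMod n) = ((n - 1 : ℕ) : ZMod n) * 0 + ((1 : ℕ) : ZMod n) * (k : ZMod n) := by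
        push_cast; ring
      rw [if_pos h4, Nat.choose_one_right, pow_one]
      field_simp
    have h5 := third_lt hn
    linarith
  -- the support
  set S := Finset.univ.filter (fun a => 0 < P a) with hS
  have hPnn : ∀ a, 0 ≤ P a := hP.1
  have hSsum : ∑ a ∈ S, P a = 1 := by
    rw [← hP.2, hS]
    apply Finset.sum_filter_of_ne
    intro a _ hne
    exact lt_of_le_of_ne (hPnn a) (Ne.symm hne)
  have hSne : S.Nonempty := by
    by_contra h
    rw [Finset.not_nonempty_iff_eq_empty] at h
    rw [h, Finset.sum_empty] at hSsum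
    norm_num at hSsum
  obtain ⟨a₀, ha₀⟩ := hSne
  have hconst : ∀ a ∈ S, c P (n - 1) ((k : ZMod n) - a) = c P (n - 1) ((k : ZMod n) - a₀) := by
    intro a ha
    exact le_antisymm
      (kkt (by omega) P hP _ hPmax' a a₀ (Finset.mem_filter.1 ha₀).2)
      (kkt (by omega) P hP _ hPmax' a₀ a (Finset.mem_filter.1 ha).2)
  have hmval : m = c P (n - 1) ((k : ZMod n) - a₀) := by
    have e1 : ∀ N : ℕ, 1 ≤ N → c P N (k : ZMod n)
        = ∑ a, P a * c P (N - 1) ((k : ZMod n) - a) := by
      intro N hN
      obtain ⟨K, rfl⟩ : ∃ K, N = K + 1 := ⟨N - 1, by omega⟩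
      rw [c_succ, Nat.add_sub_cancel]
    have e2 : m = ∑ a, P a * c P (n - 1) ((k : ZMod n) - a) := e1 n (by omega)
    rw [e2]
    have e3 : ∑ a, P a * c P (n - 1) ((k : ZMod n) - a)
        = ∑ a ∈ S, P a * c P (n - 1) ((k : ZMod n) - a) := by
      rw [hS]
      symm
      apply Finset.sum_filter_of_ne
      intro a _ hne
      refine lt_of_le_of_ne (hPnn a) (fun h => hne ?_)
      rw [← h, zero_mul]
    rw [e3, Finset.sum_congr rfl (fun a ha => by rw [hconst a ha]), ← Finset.sum_mul, hSsum,
      one_mul]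
  have hcardm : (S.card : ℝ) * m ≤ 1 := by
    have h1 : ∑ a ∈ S, c P (n - 1) ((k : ZMod n) - a) = S.card * m := by
      rw [Finset.sum_congr rfl (fun a ha => by rw [hconst a ha, ← hmval]), Finset.sum_const,
        nsmul_eq_mul]
    rw [← h1]
    have h2 : ∑ a, c P (n - 1) ((k : ZMod n) - a) = 1 := by
      rw [Fintype.sum_equiv (Equiv.subLeft (k : ZMod n)) (fun a => c P (n - 1) ((k : ZMod n) - a))
        (fun y => c P (n - 1) y) (fun a => rfl), c_sum, hP.2, one_pow]
    rw [← h2]
    exact Finset.sum_le_univ_sum_of_nonneg (fun a => c_nonneg hPnn _ _)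
  have hcard : S.card ≤ 2 := by
    by_contra hcon
    push Not at hcon
    have h3 : (3 : ℝ) ≤ S.card := by exact_mod_cast hcon
    nlinarith
  -- two-point form
  have hzero : ∀ y, y ∉ S → P y = 0 := by
    intro y hy
    by_contra hne
    exact hy (Finset.mem_filter.2 ⟨Finset.mem_univ _, lt_of_le_of_ne (hPnn y) (Ne.symm hne)⟩)
  have hpos : 1 ≤ S.card := Finset.card_pos.2 ⟨a₀, ha₀⟩
  rcases (by omega : S.card = 1 ∨ S.card = 2) with h1 | h2
  · obtain ⟨a, ha⟩ := Finset.card_eq_one.1 h1
    have hPa : P a = 1 := by rw [ha, Finset.sum_singleton] at hSsum; exact hSsum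
    have hPeq : P = fun y => (1 - 0) * (if y = a then 1 else 0) + 0 * (if y = a then 1 else 0) := by
      funext y
      by_cases hy : y = a
      · rw [hy, hPa]; simp
      · rw [hzero y (by rw [ha, Finset.mem_singleton]; exact hy)]; simp [hy]
    rw [hm, hPeq]
    exact two_point_bound hn hk1 hk2 hV a a le_rfl zero_le_one
  · obtain ⟨a, b, hab, ha⟩ := Finset.card_eq_two.1 h2
    have hPab : P a + P b = 1 := by
      rw [ha, Finset.sum_pair hab] at hSsum; exact hSsum
    have hPeq : P = fun y => (1 - P b) * (if y = a then 1 else 0)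
        + P b * (if y = b then 1 else 0) := by
      funext y
      by_cases hy : y = a
      · have hyb : y ≠ b := fun h => hab (hy ▸ h)
        rw [if_pos hy, if_neg hyb, hy]; linarith
      · by_cases hyb : y = b
        · rw [if_neg hy, if_pos hyb, hyb]; ring
        · rw [hzero y (by
            rw [ha, Finset.mem_insert, Finset.mem_singleton]
            rintro (h | h)
            · exact hy h
            · exact hyb h), if_neg hy, if_neg hyb]
          ring
    rw [hm, hPeq]
    exact two_point_bound hn hk1 hk2 hV a b (hPnn b) (by linarith [hPnn a])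

/-- The probability of a die in terms of convolution powers. -/
theorem diceProb_eq {n m : ℕ} [NeZero n] (hm : 0 < m) (L : Fin m → ℤ) (k : ℕ) :
    diceProb n m L k = c (fun y : ZMod n =>
      ((Finset.univ.filter (fun j => ((L j : ℤ) : ZMod n) = y)).card : ℝ) / m) n (k : ZMod n) := by
  unfold diceProb
  have h := count_eq hm (fun j => ((L j : ℤ) : ZMod n)) n (k : ZMod n)
  have h2 : (Finset.univ.filter (fun f : Fin n → Fin m => ∑ i, L (f i) ≡ (k : ℤ) [ZMOD n]))
      = (Finset.univ.filter (fun f : Fin n → Fin m =>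
        ∑ i, ((L (f i) : ℤ) : ZMod n) = (k : ZMod n))) := by
    apply Finset.filter_congr
    intro f _
    rw [← ZMod.intCast_eq_intCast_iff]
    push_cast
    rfl
  have hm' : (0 : ℝ) < (m : ℝ) ^ n := by positivity
  rw [h2, h]
  field_simp

/-- Dice with `a` faces labelled `k` and `m - a` faces labelled `0`. -/
theorem special_die {n m k a : ℕ} [NeZero n] (hn : 2 ≤ n) (hm : 0 < m) (ha : a ≤ m) :
    diceProb n m (fun j => if (j : ℕ) < a then (k : ℤ) else 0) k
      = binProb n (n / n.gcd k) ((a : ℝ) / m) := by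
  classical
  rw [diceProb_eq hm]
  have hm' : (m : ℝ) ≠ 0 := by positivity
  by_cases hk0 : (k : ZMod n) = 0
  · -- then `n ∣ k`; both sides are `1`
    have hnk : n ∣ k := (ZMod.natCast_eq_zero_iff k n).1 hk0
    have hg : n.gcd k = n := Nat.gcd_eq_left hnk
    have hone : n / n.gcd k = 1 := by rw [hg]; exact Nat.div_self (by omega)
    rw [hone]
    have h1 : (fun y : ZMod n => ((Finset.univ.filter (fun j : Fin m =>
        (((if (j : ℕ) < a then (k : ℤ) else 0 : ℤ)) : ZMod n) = y)).card : ℝ) / m)
        = fun y => (1 - 0) * (if y = 0 then 1 else 0) + 0 * (if y = 0 then 1 else 0) := by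
      funext y
      have : ∀ j : Fin m, (((if (j : ℕ) < a then (k : ℤ) else 0 : ℤ)) : ZMod n) = 0 := by
        intro j
        split_ifs
        · push_cast; exact hk0
        · push_cast; rfl
      simp only [this]
      by_cases hy : y = 0
      · subst hy
        simp [hm']
      · have : ¬ (0 : ZMod n) = y := fun h => hy h.symm
        simp [hy, this]
    rw [h1, c_two, hk0]
    have h2 : binProb n 1 ((a : ℝ) / m) = 1 := by
      rw [binProb_eq]
      have : cls n 1 1 = Finset.range (n + 1) := by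
        unfold cls
        apply Finset.filter_true_of_mem
        intro i _
        exact Nat.modEq_one
      rw [this, bt_sum]
    rw [h2, Finset.sum_eq_single 0]
    · simp
    · intro i _ hi
      rw [zero_pow hi]; ring
    · intro h; exact absurd (Finset.mem_range.2 (by omega)) h
  · have h1 : (fun y : ZMod n => ((Finset.univ.filter (fun j : Fin m =>
        (((if (j : ℕ) < a then (k : ℤ) else 0 : ℤ)) : ZMod n) = y)).card : ℝ) / m)
        = fun y => (1 - (a : ℝ) / m) * (if y = 0 then 1 else 0)
          + (a : ℝ) / m * (if y = (k : ZMod n) then 1 else 0) := by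
      funext y
      have hcount : (Finset.univ.filter (fun j : Fin m => (j : ℕ) < a)).card = a := by
        rw [Fin.card_filter_val_lt]
        omega
      have hcount' : (Finset.univ.filter (fun j : Fin m => ¬ (j : ℕ) < a)).card = m - a := by
        have := Finset.card_filter_add_card_filter_not (s := (Finset.univ : Finset (Fin m)))
          (p := fun j : Fin m => (j : ℕ) < a)
        rw [Finset.card_univ, Fintype.card_fin] at this
        omega
      by_cases hy : y = 0
      · have hyk : ¬ y = (k : ZMod n) := fun h => hk0 (h ▸ hy)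
        rw [if_pos hy, if_neg hyk]
        have e : (Finset.univ.filter (fun j : Fin m =>
            (((if (j : ℕ) < a then (k : ℤ) else 0 : ℤ)) : ZMod n) = y))
            = Finset.univ.filter (fun j : Fin m => ¬ (j : ℕ) < a) := by
          apply Finset.filter_congr
          intro j _
          rw [hy]
          split_ifs with h
          · push_cast
            simp [hk0, h]
          · simp [h]
        rw [e, hcount', Nat.cast_sub ha]
        field_simp
        ring
      · by_cases hyk : y = (k : ZMod n)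
        · rw [if_neg hy, if_pos hyk]
          have e : (Finset.univ.filter (fun j : Fin m =>
              (((if (j : ℕ) < a then (k : ℤ) else 0 : ℤ)) : ZMod n) = y))
              = Finset.univ.filter (fun j : Fin m => (j : ℕ) < a) := by
            apply Finset.filter_congr
            intro j _
            rw [hyk]
            split_ifs with h
            · push_cast
              simp [h]
            · have : ¬ (0 : ZMod n) = (k : ZMod n) := fun h => hk0 h.symm
              simp [h, this]
          rw [e, hcount]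
          ring
        · rw [if_neg hy, if_neg hyk]
          have e : (Finset.univ.filter (fun j : Fin m =>
              (((if (j : ℕ) < a then (k : ℤ) else 0 : ℤ)) : ZMod n) = y)) = ∅ := by
            apply Finset.filter_eq_empty_iff.2
            intro j _
            split_ifs with h
            · push_cast
              exact fun h => hyk h.symm
            · push_cast
              exact fun h => hy h.symm
          rw [e]
          simp
    rw [h1, c_two, binProb_eq]
    unfold cls
    rw [Finset.sum_filter]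
    refine Finset.sum_congr rfl (fun i hi => ?_)
    rw [mul_zero, zero_add]
    have hord : addOrderOf (k : ZMod n) = n / n.gcd k := ZMod.addOrderOf_coe k (by omega)
    have hiff : ((k : ZMod n) = (i : ZMod n) * (k : ZMod n)) ↔ i ≡ 1 [MOD (n / n.gcd k)] := by
      rw [← hord, ← nsmul_eq_nsmul_iff_modEq, one_smul, nsmul_eq_mul]
      exact eq_comm
    simp only [hiff]
    unfold bt
    split_ifs <;> ring

/-- `n t (1-t)^(n-1) ≤ (1-1/n)^(n-1)`. -/
theorem single_le {n : ℕ} (hn : 2 ≤ n) {t : ℝ} (h1 : t ≤ 1) :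
    (n : ℝ) * t * (1 - t) ^ (n - 1) ≤ (1 - 1 / (n : ℝ)) ^ (n - 1) := by
  have hnR : (2 : ℝ) ≤ n := by exact_mod_cast hn
  rcases eq_or_lt_of_le h1 with h | h
  · rw [h, sub_self, zero_pow (by omega), mul_zero]
    apply pow_nonneg
    have := (inv_mem hn).2
    linarith
  have hx : 0 < 1 - 1 / (n : ℝ) := by
    have : 1 / (n : ℝ) ≤ 1 / 2 := by
      apply one_div_le_one_div_of_le <;> linarith
    linarith
  have hs : 0 < 1 - t := by linarith
  -- `z = (1 - 1/n) / (1 - t)`
  set z : ℝ := (1 - 1 / (n : ℝ)) / (1 - t) with hz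
  have hzpos : 0 < z := div_pos hx hs
  have hb := one_add_mul_le_pow (a := z - 1) (by linarith) n
  have e1 : 1 + (z - 1) = z := by ring
  rw [e1] at hb
  have e2 : z * (1 - t) = 1 - 1 / (n : ℝ) := by rw [hz]; field_simp
  have e3 : (1 - 1 / (n : ℝ)) ^ (n - 1) = z ^ (n - 1) * (1 - t) ^ (n - 1) := by
    rw [← mul_pow, e2]
  rw [e3]
  apply mul_le_mul_of_nonneg_right _ (by positivity)
  -- n t ≤ z^(n-1)
  have e4 : z ^ n = z ^ (n - 1) * z := by
    conv_lhs => rw [show n = (n - 1) + 1 by omega]
    rw [pow_succ]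
  rw [e4] at hb
  have e5 : (n : ℝ) * t * z ≤ z ^ (n - 1) * z := by
    refine le_trans (le_of_eq ?_) hb
    have hn0 : (n : ℝ) ≠ 0 := by linarith
    have e6 : t * z = z - (1 - 1 / (n : ℝ)) := by rw [← e2]; ring
    calc (n : ℝ) * t * z = n * (t * z) := by ring
      _ = n * (z - (1 - 1 / (n : ℝ))) := by rw [e6]
      _ = 1 + n * (z - 1) := by field_simp; ring
  exact le_of_mul_le_mul_right e5 hzpos

theorem cls_self {n : ℕ} (hn : 2 ≤ n) : cls n n 1 = {1} := by
  unfold cls
  ext i
  rw [Finset.mem_filter, Finset.mem_range, Finset.mem_singleton]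
  constructor
  · rintro ⟨h1, h2⟩
    have h3 : i % n = 1 % n := h2
    rw [Nat.mod_eq_of_lt (by omega : 1 < n)] at h3
    rcases Nat.lt_or_ge i n with h4 | h4
    · rwa [Nat.mod_eq_of_lt h4] at h3
    · have : i = n := by omega
      rw [this, Nat.mod_self] at h3
      omega
  · rintro rfl
    exact ⟨by omega, rfl⟩

/-- **Main result** (MP_f30851_co, Q1).  Let `n ≥ 2` and `1 ≤ k ≤ n - 1`.  Then `M(n,k)` is the
maximum over `t ∈ [0,1]` of the probability that a binomial variable with parameters `n, t` is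
congruent to `1` modulo `n / gcd(n,k)`.  If `gcd(n,k) = 1` it equals `(1 - 1/n)^(n-1)`, and if
`k = n/2` it equals `1/2`. -/
theorem result (n k : ℕ) (hn : 2 ≤ n) (hk1 : 1 ≤ k) (hk2 : k ≤ n - 1) :
    IsGreatest (binProb n (n / n.gcd k) '' Set.Icc (0 : ℝ) 1) (M n k) ∧
    (n.gcd k = 1 → M n k = (1 - 1 / (n : ℝ)) ^ (n - 1)) ∧
    (n = 2 * k → M n k = 1 / 2) := by
  classical
  have : NeZero n := ⟨by omega⟩
  obtain ⟨t₀, ht₀, hmax⟩ := (isCompact_Icc (a := (0 : ℝ)) (b := 1)).exists_isMaxOn
    ⟨0, le_rfl, zero_le_one⟩ (binProb_continuous n (n / n.gcd k)).continuousOn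
  set V := binProb n (n / n.gcd k) t₀ with hVdef
  have hV : ∀ t : ℝ, 0 ≤ t → t ≤ 1 → binProb n (n / n.gcd k) t ≤ V :=
    fun t h0 h1 => hmax ⟨h0, h1⟩
  have hub : ∀ x ∈ {x : ℝ | ∃ (m : ℕ) (L : Fin m → ℤ), 2 ≤ m ∧ x = diceProb n m L k}, x ≤ V := by
    rintro x ⟨m, L, hm, rfl⟩
    have hm0 : 0 < m := by omega
    rw [diceProb_eq hm0]
    apply simplex_bound hn hk1 hk2 hV
    refine ⟨fun y => by positivity, ?_⟩
    rw [← Finset.sum_div, ← Nat.cast_sum, ← Finset.card_eq_sum_card_fiberwise
      (f := fun j => ((L j : ℤ) : ZMod n)) (t := Finset.univ) (fun _ _ => Finset.mem_univ _),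
      Finset.card_univ, Fintype.card_fin]
    have : (m : ℝ) ≠ 0 := by positivity
    field_simp
  have hM : M n k = V := by
    apply le_antisymm
    · apply csSup_le _ hub
      exact ⟨_, 2, fun _ => 0, le_rfl, rfl⟩
    · have htend : Filter.Tendsto (fun m : ℕ => binProb n (n / n.gcd k)
          ((⌊t₀ * (m : ℝ)⌋₊ : ℝ) / (m : ℝ))) Filter.atTop (nhds V) := by
        have h1 := (tendsto_nat_floor_mul_div_atTop ht₀.1 (R := ℝ)).comp
          (tendsto_natCast_atTop_atTop (R := ℝ))
        exact ((binProb_continuous n (n / n.gcd k)).tendsto t₀).comp h1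
      refine le_of_tendsto htend ?_
      filter_upwards [Filter.eventually_ge_atTop 2] with m hm
      have hm0 : (0 : ℝ) < m := by
        have : 0 < m := by omega
        exact_mod_cast this
      have hfl : ⌊t₀ * (m : ℝ)⌋₊ ≤ m := by
        have : t₀ * (m : ℝ) ≤ m := by nlinarith [ht₀.2]
        exact Nat.floor_le_of_le this
      rw [← special_die hn (by omega) hfl]
      exact le_csSup ⟨V, hub⟩ ⟨m, _, hm, rfl⟩
  refine ⟨?_, ?_, ?_⟩
  · rw [hM]
    refine ⟨⟨t₀, ht₀, rfl⟩, ?_⟩
    rintro x ⟨t, ht, rfl⟩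
    exact hV t ht.1 ht.2
  · intro hg
    rw [hM]
    have hR : n / n.gcd k = n := by rw [hg, Nat.div_one]
    apply le_antisymm
    · rw [hVdef, hR, binProb_eq, cls_self hn, Finset.sum_singleton]
      have := single_le hn ht₀.2
      unfold bt
      rw [Nat.choose_one_right, pow_one]
      exact this
    · exact (le_binProb hn _).trans (hV _ (inv_mem hn).1 (inv_mem hn).2)
  · intro hnk
    rw [hM]
    have hR : n / n.gcd k = 2 := by
      have hg : n.gcd k = k := by
        rw [hnk]
        exact Nat.gcd_eq_right (Dvd.intro_left 2 rfl)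
      rw [hg, hnk]
      exact Nat.mul_div_cancel _ (by omega)
    have hform : ∀ t : ℝ, binProb n 2 t = (1 - (1 - 2 * t) ^ n) / 2 := by
      intro t
      have h1 := bt_sum n t
      have h2 := add_pow (-t) (1 - t) n
      have h3 : -t + (1 - t) = 1 - 2 * t := by ring
      rw [h3] at h2
      rw [binProb_eq, h2]
      have h4 : (1 : ℝ) - ∑ m ∈ Finset.range (n + 1), (-t) ^ m * (1 - t) ^ (n - m) * (n.choose m : ℝ)
          = ∑ m ∈ Finset.range (n + 1), (if m ≡ 1 [MOD 2] then 2 * bt n t m else 0) := by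
        have h5 : (1 : ℝ) - ∑ m ∈ Finset.range (n + 1),
              (-t) ^ m * (1 - t) ^ (n - m) * (n.choose m : ℝ)
            = (∑ m ∈ Finset.range (n + 1), bt n t m) - ∑ m ∈ Finset.range (n + 1),
              (-t) ^ m * (1 - t) ^ (n - m) * (n.choose m : ℝ) := by rw [h1]
        rw [h5, ← Finset.sum_sub_distrib]
        refine Finset.sum_congr rfl (fun m _ => ?_)
        unfold bt
        rw [neg_pow t m]
        split_ifs with h
        · have hodd : Odd m := Nat.odd_iff.2 h
          rw [hodd.neg_one_pow]; ring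
        · have heven : Even m := by
            rw [Nat.even_iff]
            have : m % 2 ≠ 1 := h
            omega
          rw [heven.neg_one_pow]; ring
      rw [h4, ← Finset.sum_filter, ← Finset.mul_sum]
      unfold cls
      ring
    apply le_antisymm
    · rw [hVdef, hR, hform]
      have heven : Even n := ⟨k, by omega⟩
      have : 0 ≤ (1 - 2 * t₀) ^ n := heven.pow_nonneg _
      linarith
    · have := hV (1 / 2) (by norm_num) (by norm_num)
      rw [hR, hform] at this
      refine le_trans (le_of_eq ?_) this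
      have h0 : (1 : ℝ) - 2 * (1 / 2) = 0 := by norm_num
      rw [h0, zero_pow (by omega)]
      norm_num

end Pool.Agent.Results.MP_f30851_co.DiceResidue
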